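import Pool.Agent.Lib.helper32.TowerS

set_option autoImplicit false

namespace Pool.Agent.Results.MP_bc74b8_gt.SplitSq

open Set Pool.Agent.Lib.helper32.Tau

theorem result (hCH : Cardinal.continuum.{0} = Cardinal.aleph 1) :
    ∃ X : Set ℝ, Split (Z := X) Om Ta ∧ ¬ Split (Z := Fin 2 → X) Om Ta := by
  obtain ⟨X, C, h1, h2⟩ := ex hCH
  obtain ⟨𝓤, h3, h4⟩ := h1.sq
  refine ⟨X, h2.split, fun h5 => ?_⟩
  obtain ⟨𝓥, 𝓦, -, h6, ⟨𝓐, h7, h8⟩, -⟩ := h5 𝓤 h3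
  exact h4 _ (h7.trans (h6 ▸ subset_union_left)) h8

end Pool.Agent.Results.MP_bc74b8_gt.SplitSq
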