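import Pool.Agent.Lib.helper32.Luz2

set_option autoImplicit false

namespace Pool.Agent.Results.MP_bc74b8_gt.SplitTT

open Set Pool.Agent.Lib.helper32.Tau

theorem result (hCH : Cardinal.continuum.{0} = Cardinal.aleph 1) :
    ∃ X : Set ℝ, Split (Z := X) Ta Ta ∧ ¬ Split (Z := X × X) Ta Ta := by
  obtain ⟨X, h1, W, h2, h3, h4, h5⟩ := exl hCH
  exact ⟨X, cho_split h1, nsplit h2 h3 h4 h5⟩

end Pool.Agent.Results.MP_bc74b8_gt.SplitTT
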